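import Pool.Agent.helper73.SPV.Spec

/-!
# Project sp, row XAB: finitely generated commutative groups
-/

set_option autoImplicit false

namespace Pool.Agent.SPV

open Matrix Module Pool.Agent.SHL Pool.Agent.H48SL

theorem XAB (hPBA : PBA_stmt) (hHA : SHL.HA_stmt) : XAB_stmt := by
  classical
  intro Q _ hfg
  obtain ⟨p1, p2, -, -, -⟩ := hPBA Q
  obtain ⟨a1, -, -, -, -, -⟩ := hHA Q
  have key : ∀ s : Finset Q, ∃ N : ℕ, PB N ((Subgroup.closure (s : Set Q) : Subgroup Q) : Set Q) ∧
      Hi N (Subgroup.closure (s : Set Q)) := by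
    intro s
    induction s using Finset.induction_on with
    | empty =>
      refine ⟨0, ?_, trivial⟩
      rw [Finset.coe_empty, Subgroup.closure_empty]
      exact (Set.finite_singleton (1 : Q)).subset (by
        intro x hx
        exact hx)
    | insert g s _ ih =>
      obtain ⟨N, hPB, hHi⟩ := ih
      have hL : Subgroup.closure ((insert g s : Finset Q) : Set Q) =
          Subgroup.zpowers g ⊔ Subgroup.closure (s : Set Q) := by
        rw [Finset.coe_insert, Set.insert_eq, Subgroup.closure_union, Subgroup.zpowers_eq_closure]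
      have hKL : Subgroup.closure (s : Set Q) ≤
          Subgroup.closure ((insert g s : Finset Q) : Set Q) := by
        rw [hL]
        exact le_sup_right
      have hgL : g ∈ Subgroup.closure ((insert g s : Finset Q) : Set Q) := by
        rw [hL]
        exact (le_sup_left : Subgroup.zpowers g ≤ _) (Subgroup.mem_zpowers g)
      have hmem : ∀ x ∈ Subgroup.closure ((insert g s : Finset Q) : Set Q),
          ∃ m : ℤ, ∃ t ∈ Subgroup.closure (s : Set Q), x = g ^ m * t := by
        intro x hx
        rw [hL] at hx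
        obtain ⟨y, hy, z, hz, rfl⟩ := Subgroup.mem_sup.mp hx
        obtain ⟨m, rfl⟩ := Subgroup.mem_zpowers_iff.mp hy
        exact ⟨m, z, hz, rfl⟩
      by_cases hj : ∃ j : ℕ, 0 < j ∧ g ^ j ∈ Subgroup.closure (s : Set Q)
      · obtain ⟨j, hj0, hj⟩ := hj
        refine ⟨N, ?_, a1 N _ _ hKL hHi⟩
        refine p1 N _ _ ?_ (p2 N ((fun r : ℕ => g ^ r) '' (Set.Iio j)) _
          ((Set.finite_Iio j).image _) hPB)
        intro x hx
        obtain ⟨m, t, ht, rfl⟩ := hmem x hx
        have hjz : (0 : ℤ) < j := by exact_mod_cast hj0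
        have hr0 : 0 ≤ m % (j : ℤ) := Int.emod_nonneg m hjz.ne'
        have hr1 : m % (j : ℤ) < j := Int.emod_lt_of_pos m hjz
        obtain ⟨r, hr⟩ := Int.eq_ofNat_of_zero_le hr0
        refine ⟨g ^ r, ⟨r, ?_, rfl⟩, (g ^ j) ^ (m / (j : ℤ)) * t, ?_, ?_⟩
        · rw [Set.mem_Iio]
          omega
        · exact mul_mem (zpow_mem hj _) ht
        · have e : g ^ m = g ^ r * (g ^ j) ^ (m / (j : ℤ)) := by
            conv_lhs => rw [← Int.emod_add_mul_ediv m (j : ℤ), hr]
            rw [_root_.zpow_add, _root_.zpow_mul, _root_.zpow_natCast, _root_.zpow_natCast]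
          rw [e, mul_assoc]
      · refine ⟨N + 1, ?_, ?_⟩
        · refine ⟨{1}, g, _, Set.finite_singleton 1, hPB, ?_⟩
          intro x hx
          obtain ⟨m, t, ht, rfl⟩ := hmem x hx
          exact ⟨1, rfl, m, t, ht, by rw [one_mul]⟩
        · refine ⟨_, _, hKL, le_refl _, ?_, ⟨g, hgL, ?_⟩, hHi⟩
          · intro l _ k hk
            rw [mul_comm l k, mul_inv_cancel_right]
            exact hk
          · intro j hj0 hmemj
            exact hj ⟨j, hj0, hmemj⟩
  obtain ⟨S, hS, hfin⟩ := Group.fg_iff.mp hfg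
  obtain ⟨N, h1, h2⟩ := key hfin.toFinset
  rw [Set.Finite.coe_toFinset, hS] at h1 h2
  exact ⟨N, by simpa using h1, h2⟩

end Pool.Agent.SPV
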